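import Pool.Agent.Helper32.PD.Defs

/-!
# PD-11c: the popular residue vector and the late centres
-/

set_option autoImplicit false

namespace Pool.Agent.Helper32.PD

open Finset
open scoped Classical

variable {V : Type}

/-- Greedy choice of a sequence without a relation of bounded degree. -/
theorem late_greedy (Y : Finset V) (R : V → V → Prop) (d : ℝ) (hd0 : 0 ≤ d)
    (hd : ∀ y ∈ Y, ((Y.filter fun x => R y x).card : ℝ) ≤ d) :
    ∀ N : ℕ, (N : ℝ) * d < Y.card →
      ∃ v : Fin N → V, (∀ i, v i ∈ Y) ∧ ∀ i j, j < i → ¬ R (v j) (v i) := by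
  intro N
  induction N with
  | zero =>
    intro _
    exact ⟨Fin.elim0, fun i => i.elim0, fun i => i.elim0⟩
  | succ N ih =>
    intro hN
    have hN' : (N : ℝ) * d < Y.card := by
      push_cast at hN
      nlinarith
    obtain ⟨v, hv, hR⟩ := ih hN'
    have h1 : ((univ.biUnion fun j => Y.filter fun x => R (v j) x).card : ℝ) ≤ N * d := by
      calc ((univ.biUnion fun j => Y.filter fun x => R (v j) x).card : ℝ)
          ≤ ((∑ j : Fin N, (Y.filter fun x => R (v j) x).card : ℕ) : ℝ) := by
            exact_mod_cast card_biUnion_le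
        _ = ∑ j : Fin N, ((Y.filter fun x => R (v j) x).card : ℝ) := by push_cast; rfl
        _ ≤ ∑ _j : Fin N, d := sum_le_sum fun j _ => hd _ (hv j)
        _ = N * d := by simp
    have h2 : (univ.biUnion fun j => Y.filter fun x => R (v j) x).card < Y.card := by
      have : ((univ.biUnion fun j => Y.filter fun x => R (v j) x).card : ℝ) < Y.card :=
        lt_of_le_of_lt h1 hN'
      exact_mod_cast this
    obtain ⟨x, hxY, hx⟩ := exists_mem_notMem_of_card_lt_card h2
    refine ⟨Fin.snoc v x, ?_, ?_⟩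
    · intro i
      refine Fin.lastCases ?_ (fun i => ?_) i
      · simpa using hxY
      · simpa using hv i
    · intro i j
      refine Fin.lastCases ?_ (fun i => ?_) i
      · refine Fin.lastCases ?_ (fun j => ?_) j
        · intro h
          exact absurd h (lt_irrefl _)
        · intro _ h
          apply hx
          simp only [Fin.snoc_castSucc, Fin.snoc_last] at h
          exact mem_biUnion.2 ⟨j, mem_univ _, mem_filter.2 ⟨hxY, h⟩⟩
      · refine Fin.lastCases ?_ (fun j => ?_) j
        · intro h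
          exact absurd h (not_lt.2 (Fin.le_last _))
        · intro h
          simp only [Fin.snoc_castSucc]
          exact hR i j (by simpa using h)

/-- The popular residue vector and the late centres. -/
theorem exists_late (F : SimpleGraph V) {Λ ι : Type} [Fintype Λ] [Nonempty Λ] [Fintype ι]
    (I L : Λ → Finset V) (f : Λ → V → V) (X O : Finset V) (ξ lam θ : ℝ) (n q K : ℕ)
    (hn : 1 ≤ n) (hq : 0 < q) (S : Sys2 F I L f X O ξ lam θ n) (W : Finset V) (ref : Λ → V)
    (hK : W.card ≤ K) (href : ∀ l, ref l ∈ L l)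
    (hW : ∀ w ∈ W, w ∈ X ∨ w ∈ O ∨ ∃ l, w = ref l)
    (hsmall : ((K + Fintype.card ι + 2) * (2 * Fintype.card Λ + 3)) * θ *
      q ^ Fintype.card Λ < ξ) :
    ∃ (r : Λ → ℕ) (v : ι → V), (∀ l, r l < q) ∧ Function.Injective v ∧ (∀ i, v i ∈ X) ∧
      (∀ i l, f l (v i) ≠ ref l ∧ (hp F (I l) (ref l) (f l (v i))).length % q = r l) ∧
      (∀ i, ∀ w ∈ W, v i ≠ w ∧ ¬ F.Adj (v i) w) ∧
      (∀ i l, ∀ w ∈ W, w ≠ ref l → f l (v i) ≠ w ∧ ¬ F.Adj (f l (v i)) w) ∧
      (∀ i j, ¬ F.Adj (v i) (v j)) ∧ ∀ i j l, i ≠ j → ¬ F.Adj (v i) (f l (v j)) := by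
  obtain ⟨l₀⟩ := ‹Nonempty Λ›
  have hn' : (1 : ℝ) ≤ n := by exact_mod_cast hn
  have hn0 : (0 : ℝ) < n := by linarith
  obtain ⟨y₀, hy₀⟩ := (S.conn l₀).1
  set m := Fintype.card Λ with hm
  set N := Fintype.card ι with hN
  have hθn : 0 ≤ θ * n := le_trans (Nat.cast_nonneg _) (S.degX y₀)
  have hθ0 : 0 ≤ θ := by
    by_contra h
    push Not at h
    nlinarith
  have hqm : (1 : ℝ) ≤ (q : ℝ) ^ m := one_le_pow₀ (by exact_mod_cast hq)
  have hξ : 0 < ξ := by
    refine lt_of_le_of_lt ?_ hsmall
    positivity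
  have hXne : X.Nonempty := by
    rw [← card_pos]
    have := S.sizeX
    have h2 : (0 : ℝ) < X.card := lt_of_lt_of_le (by positivity) this
    exact_mod_cast h2
  obtain ⟨x₀, hx₀⟩ := hXne
  have hone : (1 : ℝ) ≤ θ * n := by
    refine le_trans ?_ (S.degX (f l₀ x₀))
    have : 1 ≤ (X.filter fun x => F.Adj (f l₀ x₀) x).card :=
      card_pos.2 ⟨x₀, mem_filter.2 ⟨hx₀, ((S.f_mem x₀ hx₀ l₀).2).symm⟩⟩
    exact_mod_cast this
  -- the good vertices
  set P : V → Prop := fun x => (∀ w ∈ W, x ≠ w ∧ ¬ F.Adj x w) ∧ (∀ l, f l x ≠ ref l) ∧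
    ∀ l, ∀ w ∈ W, w ∈ X → ¬ F.Adj w (f l x) with hP
  set G := X.filter P with hG
  have hbad : ((X.filter fun x => ¬ P x).card : ℝ) ≤ (K * (2 + m) + m) * (θ * n) := by
    have hsub : (X.filter fun x => ¬ P x) ⊆
        (W.biUnion fun w => ({w} ∪ X.filter fun x => F.Adj w x) ∪
          univ.biUnion fun l => X.filter fun x => w ∈ X ∧ F.Adj w (f l x)) ∪
        univ.biUnion fun l => X.filter fun x => F.Adj (ref l) x := by
      intro x hx
      rw [mem_filter] at hx
      obtain ⟨hxX, hx⟩ := hx
      by_contra hcon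
      apply hx
      simp only [mem_union, mem_biUnion, mem_singleton, mem_filter, mem_univ, true_and, not_or,
        not_exists, not_and] at hcon
      obtain ⟨h1, h2⟩ := hcon
      refine ⟨fun w hw => ⟨fun h => (h1 w hw).1.1 h, fun h => (h1 w hw).1.2 hxX h.symm⟩,
        fun l h => h2 l hxX ?_, fun l w hw hwX => (h1 w hw).2 l hxX hwX⟩
      rw [← h]
      exact ((S.f_mem x hxX l).2).symm
    have hc1 : ∀ w ∈ W, ((({w} ∪ X.filter fun x => F.Adj w x) ∪
        univ.biUnion fun l => X.filter fun x => w ∈ X ∧ F.Adj w (f l x)).card : ℝ) ≤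
        (2 + m) * (θ * n) := by
      intro w _
      have e1 : (({w} ∪ X.filter fun x => F.Adj w x).card : ℝ) ≤ 1 + θ * n := by
        have := card_union_le {w} (X.filter fun x => F.Adj w x)
        have h' : (({w} ∪ X.filter fun x => F.Adj w x).card : ℝ) ≤
            1 + (X.filter fun x => F.Adj w x).card := by
          rw [card_singleton] at this
          exact_mod_cast this
        have h'' := S.degX w
        linarith
      have e2 : ((univ.biUnion fun l => X.filter fun x => w ∈ X ∧ F.Adj w (f l x)).card : ℝ) ≤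
          m * (θ * n) := by
        calc ((univ.biUnion fun l => X.filter fun x => w ∈ X ∧ F.Adj w (f l x)).card : ℝ)
            ≤ ((∑ l : Λ, (X.filter fun x => w ∈ X ∧ F.Adj w (f l x)).card : ℕ) : ℝ) := by
              exact_mod_cast card_biUnion_le
          _ = ∑ l : Λ, ((X.filter fun x => w ∈ X ∧ F.Adj w (f l x)).card : ℝ) := by
              push_cast; rfl
          _ ≤ ∑ _l : Λ, (θ * n) := by
              refine sum_le_sum fun l _ => ?_
              by_cases hw : w ∈ X
              · simpa [hw] using S.good w hw l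
              · simpa [hw] using hθn
          _ = m * (θ * n) := by simp [hm]
      have e3 := card_union_le ({w} ∪ X.filter fun x => F.Adj w x)
        (univ.biUnion fun l => X.filter fun x => w ∈ X ∧ F.Adj w (f l x))
      have e3' : ((({w} ∪ X.filter fun x => F.Adj w x) ∪
        univ.biUnion fun l => X.filter fun x => w ∈ X ∧ F.Adj w (f l x)).card : ℝ) ≤
          ({w} ∪ X.filter fun x => F.Adj w x).card +
          (univ.biUnion fun l => X.filter fun x => w ∈ X ∧ F.Adj w (f l x)).card := by
        exact_mod_cast e3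
      nlinarith
    have hc2 : ((univ.biUnion fun l => X.filter fun x => F.Adj (ref l) x).card : ℝ) ≤
        m * (θ * n) := by
      calc ((univ.biUnion fun l => X.filter fun x => F.Adj (ref l) x).card : ℝ)
          ≤ ((∑ l : Λ, (X.filter fun x => F.Adj (ref l) x).card : ℕ) : ℝ) := by
            exact_mod_cast card_biUnion_le
        _ = ∑ l : Λ, ((X.filter fun x => F.Adj (ref l) x).card : ℝ) := by push_cast; rfl
        _ ≤ ∑ _l : Λ, (θ * n) := sum_le_sum fun l _ => S.degX _
        _ = m * (θ * n) := by simp [hm]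
    have hc3 : ((W.biUnion fun w => ({w} ∪ X.filter fun x => F.Adj w x) ∪
          univ.biUnion fun l => X.filter fun x => w ∈ X ∧ F.Adj w (f l x)).card : ℝ) ≤
        K * ((2 + m) * (θ * n)) := by
      calc ((W.biUnion fun w => ({w} ∪ X.filter fun x => F.Adj w x) ∪
            univ.biUnion fun l => X.filter fun x => w ∈ X ∧ F.Adj w (f l x)).card : ℝ)
          ≤ ((∑ w ∈ W, (({w} ∪ X.filter fun x => F.Adj w x) ∪
            univ.biUnion fun l => X.filter fun x => w ∈ X ∧ F.Adj w (f l x)).card : ℕ) : ℝ) := by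
            exact_mod_cast card_biUnion_le
        _ = ∑ w ∈ W, ((({w} ∪ X.filter fun x => F.Adj w x) ∪
            univ.biUnion fun l => X.filter fun x => w ∈ X ∧ F.Adj w (f l x)).card : ℝ) := by
            push_cast; rfl
        _ ≤ ∑ _w ∈ W, ((2 + m) * (θ * n)) := sum_le_sum hc1
        _ = W.card * ((2 + m) * (θ * n)) := by simp
        _ ≤ K * ((2 + m) * (θ * n)) := by
            have : (W.card : ℝ) ≤ K := by exact_mod_cast hK
            have h0 : (0 : ℝ) ≤ (2 + m) * (θ * n) := by positivity
            exact mul_le_mul_of_nonneg_right this h0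
    have hc4 := card_le_card hsub
    have hc5 := card_union_le
      (W.biUnion fun w => ({w} ∪ X.filter fun x => F.Adj w x) ∪
          univ.biUnion fun l => X.filter fun x => w ∈ X ∧ F.Adj w (f l x))
      (univ.biUnion fun l => X.filter fun x => F.Adj (ref l) x)
    have hc6 : ((X.filter fun x => ¬ P x).card : ℝ) ≤
        (W.biUnion fun w => ({w} ∪ X.filter fun x => F.Adj w x) ∪
          univ.biUnion fun l => X.filter fun x => w ∈ X ∧ F.Adj w (f l x)).card +
        (univ.biUnion fun l => X.filter fun x => F.Adj (ref l) x).card := by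
      exact_mod_cast hc4.trans hc5
    nlinarith
  have hGcard : (ξ - (K * (2 + m) + m) * θ) * n ≤ (G.card : ℝ) := by
    have h1 : G.card + (X.filter fun x => ¬ P x).card = X.card := by
      rw [hG]
      exact card_filter_add_card_filter_not P
    have h2 : (G.card : ℝ) + (X.filter fun x => ¬ P x).card = X.card := by exact_mod_cast h1
    have h3 := S.sizeX
    nlinarith
  -- the popular residue vector
  set code : V → (Λ → Fin q) := fun x l =>
    ⟨(hp F (I l) (ref l) (f l x)).length % q, Nat.mod_lt _ hq⟩ with hcode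
  have hpop : ∃ r : Λ → Fin q, (N : ℝ) * ((2 + 2 * m) * (θ * n)) <
      ((G.filter fun x => code x = r).card : ℝ) := by
    by_contra hcon
    push Not at hcon
    have h1 : G.card = ∑ r : Λ → Fin q, (G.filter fun x => code x = r).card :=
      card_eq_sum_card_fiberwise fun _ _ => mem_univ _
    have h2 : (G.card : ℝ) ≤ (q : ℝ) ^ m * (N * ((2 + 2 * m) * (θ * n))) := by
      calc (G.card : ℝ) = ∑ r : Λ → Fin q, ((G.filter fun x => code x = r).card : ℝ) := by
            exact_mod_cast h1
        _ ≤ ∑ _r : Λ → Fin q, (N : ℝ) * ((2 + 2 * m) * (θ * n)) :=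
            sum_le_sum fun r _ => hcon r
        _ = (q : ℝ) ^ m * (N * ((2 + 2 * m) * (θ * n))) := by
            rw [sum_const, card_univ, Fintype.card_fun, Fintype.card_fin, nsmul_eq_mul]
            push_cast
            rfl
    have h3 : (ξ - (K * (2 + m) + m) * θ) * n ≤ (q : ℝ) ^ m * (N * ((2 + 2 * m) * θ)) * n := by
      calc (ξ - (K * (2 + m) + m) * θ) * n ≤ (G.card : ℝ) := hGcard
        _ ≤ _ := h2
        _ = _ := by ring
    have h4 : ξ - (K * (2 + m) + m) * θ ≤ (q : ℝ) ^ m * (N * ((2 + 2 * m) * θ)) :=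
      le_of_mul_le_mul_right h3 hn0
    have h5 : (K * (2 + m) + m : ℝ) * θ ≤ (q : ℝ) ^ m * ((K * (2 + m) + m : ℝ) * θ) :=
      le_mul_of_one_le_left (by positivity) hqm
    have h6 : ξ ≤ (q : ℝ) ^ m * (((K * (2 + m) + m : ℝ) + N * (2 + 2 * m)) * θ) := by
      nlinarith
    have h7 : (q : ℝ) ^ m * (((K * (2 + m) + m : ℝ) + N * (2 + 2 * m)) * θ) ≤
        ((K + N + 2) * (2 * m + 3)) * θ * (q : ℝ) ^ m := by
      have h8 : ((K * (2 + m) + m : ℝ) + N * (2 + 2 * m)) ≤ (K + N + 2) * (2 * m + 3) := by
        have : (0 : ℝ) ≤ K * m := by positivity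
        have : (0 : ℝ) ≤ N * m := by positivity
        have : (0 : ℝ) ≤ (K : ℝ) := by positivity
        have : (0 : ℝ) ≤ (N : ℝ) := by positivity
        have : (0 : ℝ) ≤ (m : ℝ) := by positivity
        nlinarith
      calc (q : ℝ) ^ m * (((K * (2 + m) + m : ℝ) + N * (2 + 2 * m)) * θ)
          ≤ (q : ℝ) ^ m * (((K + N + 2) * (2 * m + 3)) * θ) := by
            apply mul_le_mul_of_nonneg_left _ (by positivity)
            exact mul_le_mul_of_nonneg_right h8 hθ0
        _ = _ := by ring
    linarith
  obtain ⟨r, hr⟩ := hpop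
  set Y := G.filter fun x => code x = r with hY
  set R : V → V → Prop := fun y x =>
    y = x ∨ F.Adj y x ∨ (∃ l, F.Adj y (f l x)) ∨ ∃ l, F.Adj x (f l y) with hRdef
  have hYX : ∀ y ∈ Y, y ∈ X := fun y hy => (mem_filter.1 (mem_filter.1 hy).1).1
  have hRd : ∀ y ∈ Y, ((Y.filter fun x => R y x).card : ℝ) ≤ (2 + 2 * m) * (θ * n) := by
    intro y hy
    have hyX := hYX y hy
    have hsub : (Y.filter fun x => R y x) ⊆
        ({y} ∪ X.filter fun x => F.Adj y x) ∪
          ((univ.biUnion fun l => X.filter fun x => F.Adj y (f l x)) ∪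
            univ.biUnion fun l => X.filter fun x => F.Adj (f l y) x) := by
      intro x hx
      rw [mem_filter] at hx
      obtain ⟨hxY, hx⟩ := hx
      have hxX := hYX x hxY
      rcases hx with h | h | ⟨l, h⟩ | ⟨l, h⟩
      · exact mem_union_left _ (mem_union_left _ (mem_singleton.2 h.symm))
      · exact mem_union_left _ (mem_union_right _ (mem_filter.2 ⟨hxX, h⟩))
      · exact mem_union_right _ (mem_union_left _
          (mem_biUnion.2 ⟨l, mem_univ _, mem_filter.2 ⟨hxX, h⟩⟩))
      · exact mem_union_right _ (mem_union_right _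
          (mem_biUnion.2 ⟨l, mem_univ _, mem_filter.2 ⟨hxX, h.symm⟩⟩))
    have e1 : (({y} ∪ X.filter fun x => F.Adj y x).card : ℝ) ≤ 1 + θ * n := by
      have := card_union_le {y} (X.filter fun x => F.Adj y x)
      have h' : (({y} ∪ X.filter fun x => F.Adj y x).card : ℝ) ≤
          1 + (X.filter fun x => F.Adj y x).card := by
        rw [card_singleton] at this
        exact_mod_cast this
      have h'' := S.degX y
      linarith
    have e2 : ((univ.biUnion fun l => X.filter fun x => F.Adj y (f l x)).card : ℝ) ≤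
        m * (θ * n) := by
      calc ((univ.biUnion fun l => X.filter fun x => F.Adj y (f l x)).card : ℝ)
          ≤ ((∑ l : Λ, (X.filter fun x => F.Adj y (f l x)).card : ℕ) : ℝ) := by
            exact_mod_cast card_biUnion_le
        _ = ∑ l : Λ, ((X.filter fun x => F.Adj y (f l x)).card : ℝ) := by push_cast; rfl
        _ ≤ ∑ _l : Λ, (θ * n) := sum_le_sum fun l _ => S.good y hyX l
        _ = m * (θ * n) := by simp [hm]
    have e3 : ((univ.biUnion fun l => X.filter fun x => F.Adj (f l y) x).card : ℝ) ≤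
        m * (θ * n) := by
      calc ((univ.biUnion fun l => X.filter fun x => F.Adj (f l y) x).card : ℝ)
          ≤ ((∑ l : Λ, (X.filter fun x => F.Adj (f l y) x).card : ℕ) : ℝ) := by
            exact_mod_cast card_biUnion_le
        _ = ∑ l : Λ, ((X.filter fun x => F.Adj (f l y) x).card : ℝ) := by push_cast; rfl
        _ ≤ ∑ _l : Λ, (θ * n) := sum_le_sum fun l _ => S.degX _
        _ = m * (θ * n) := by simp [hm]
    have e4 := card_le_card hsub
    have e5 := card_union_le ({y} ∪ X.filter fun x => F.Adj y x)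
      ((univ.biUnion fun l => X.filter fun x => F.Adj y (f l x)) ∪
            univ.biUnion fun l => X.filter fun x => F.Adj (f l y) x)
    have e6 := card_union_le (univ.biUnion fun l => X.filter fun x => F.Adj y (f l x))
      (univ.biUnion fun l => X.filter fun x => F.Adj (f l y) x)
    have e7 : ((Y.filter fun x => R y x).card : ℝ) ≤
        ({y} ∪ X.filter fun x => F.Adj y x).card +
        ((univ.biUnion fun l => X.filter fun x => F.Adj y (f l x)).card +
          (univ.biUnion fun l => X.filter fun x => F.Adj (f l y) x).card) := by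
      exact_mod_cast e4.trans (e5.trans (Nat.add_le_add_left e6 _))
    nlinarith
  obtain ⟨v', hv', hR'⟩ := late_greedy Y R ((2 + 2 * m) * (θ * n)) (by positivity)
    (fun y hy => by convert hRd y hy) N hr
  have hRsymm : ∀ y x, R y x → R x y := by
    intro y x h
    rcases h with h | h | h | h
    · exact Or.inl h.symm
    · exact Or.inr (Or.inl h.symm)
    · exact Or.inr (Or.inr (Or.inr h))
    · exact Or.inr (Or.inr (Or.inl h))
  have hR'' : ∀ i j, i ≠ j → ¬ R (v' i) (v' j) := by
    intro i j hij h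
    rcases lt_or_gt_of_ne hij with h' | h'
    · exact hR' j i h' h
    · exact hR' i j h' (hRsymm _ _ h)
  set e : ι ≃ Fin N := Fintype.equivFin ι with he
  set v : ι → V := fun i => v' (e i) with hv
  have hR''' : ∀ i j, i ≠ j → ¬ R (v i) (v j) := fun i j hij =>
    hR'' _ _ fun h => hij (e.injective h)
  have hvY : ∀ i, v i ∈ Y := fun i => hv' _
  have hvP : ∀ i, P (v i) := fun i => (mem_filter.1 (mem_filter.1 (hvY i)).1).2
  have hvX : ∀ i, v i ∈ X := fun i => hYX _ (hvY i)
  refine ⟨fun l => (r l : ℕ), v, fun l => (r l).2, ?_, hvX, ?_, fun i => (hvP i).1, ?_, ?_, ?_⟩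
  · intro i j hij
    by_contra h
    exact hR''' i j h (Or.inl hij)
  · intro i l
    refine ⟨(hvP i).2.1 l, ?_⟩
    have : code (v i) = r := (mem_filter.1 (hvY i)).2
    rw [← this]
  · intro i l w hw hne
    have hfm := S.f_mem (v i) (hvX i) l
    refine ⟨fun h => ?_, fun h => ?_⟩
    · rw [h] at hfm
      exact ((hvP i).1 w hw).2 hfm.2
    · rcases hW w hw with hwX | hwO | ⟨l', hwl⟩
      · exact (hvP i).2.2 l w hw hwX h.symm
      · exact (S.O_leaf w hwO l _ hfm.1).2 h.symm
      · subst hwl
        have hll : l ≠ l' := by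
          rintro rfl
          exact hne rfl
        exact (S.leaf_leaf l l' hll _ hfm.1 _ (href l')).2 h
  · intro i j h
    by_cases hij : i = j
    · subst hij
      exact F.irrefl h
    · exact hR''' i j hij (Or.inr (Or.inl h))
  · intro i j l hij h
    exact hR''' i j hij (Or.inr (Or.inr (Or.inl ⟨l, h⟩)))

end Pool.Agent.Helper32.PD
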